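import Mathlib
import Pool.Agent.helper12.FD.Main
import Pool.Agent.helper12.FD.Ineq

/-!
# Compositions of Ackermann functions as distortion functions in free-by-cyclic groups
-/

namespace Pool.Agent.Results.MP_9168c4_al.AckermannCompositions

open Pool.Agent.helper12.FD

/-- The free-by-cyclic group `F_r ⋊ ℤ`, where the generator of `ℤ` acts on the free group as `φ`. -/
abbrev FreeByCyclic (r : ℕ) (φ : MulAut (FreeGroup (Fin r))) : Type :=
  FreeGroup (Fin r) ⋊[zpowersHom (MulAut (FreeGroup (Fin r))) φ] Multiplicative ℤ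

/-- Word length: the least `n` such that `g` is a product of at most `n` elements of `S ∪ S⁻¹`. -/
noncomputable def wordLength {G : Type*} [Group G] (S : Set G) (g : G) : ℕ :=
  sInf {n | ∃ w : List G, w.length ≤ n ∧ (∀ x ∈ w, x ∈ S ∨ x⁻¹ ∈ S) ∧ w.prod = g}

/-- The distortion function of `H` for the generating sets `S` of the group and `T` of `H`: the
largest `|h|_T` for `h ∈ H` with `|h|_S ≤ n`. -/
noncomputable def distortion {G : Type*} [Group G] (S T : Set G) (H : Subgroup G) (n : ℕ) : ℕ :=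
  sSup {k | ∃ h ∈ H, wordLength S h ≤ n ∧ wordLength T h = k}

/-- The usual comparison of functions. -/
def Preceq (f g : ℕ → ℕ) : Prop := ∃ C : ℕ, 1 ≤ C ∧ ∀ n, f n ≤ C * g (C * n + C) + C * n + C

/-- The usual equivalence of functions. -/
def Equivalent (f g : ℕ → ℕ) : Prop := Preceq f g ∧ Preceq g f

/-- Ackermann functions: `ack 0 n = 2 n`, and `ack (k + 1) n` is the result of applying `n` times
the function `m ↦ ack k m + 1` to `0` (so `ack 1 n = 2 ^ n - 1`). -/
def ack : ℕ → ℕ → ℕ
  | 0 => fun n => 2 * n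
  | k + 1 => fun n => (fun m => ack k m + 1)^[n] 0

/-- The composition `ack k₁ ∘ ack k₂ ∘ ⋯ ∘ ack kₘ` for the list `[k₁, …, kₘ]`. -/
def comp : List ℕ → ℕ → ℕ
  | [] => id
  | k :: l => ack k ∘ comp l

theorem ack_eq (k : ℕ) : ack k = fk k := by
  induction k with
  | zero => rfl
  | succ k ih =>
    funext n
    show (fun m => ack k m + 1)^[n] 0 = iter (fk k) n
    rw [ih]
    rfl

theorem comp_eq (l : List ℕ) : comp l = Pool.Agent.helper12.FD.cmp l := by
  induction l with
  | nil => rfl
  | cons k l ih =>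
    show ack k ∘ comp l = fk k ∘ Pool.Agent.helper12.FD.cmp l
    rw [ih, ack_eq]

/-- For every nonempty list `k₁, …, kₘ ≥ 1` the composition `ack k₁ ∘ ⋯ ∘ ack kₘ` is, up to
equivalence, the distortion function of a finitely generated subgroup of a free-by-cyclic group
(for all finite generating sets); and the compositions for different non-increasing lists are not
equivalent. -/
theorem result :
    (∀ l : List ℕ, l ≠ [] → (∀ k ∈ l, 1 ≤ k) →
      ∃ (r : ℕ) (φ : MulAut (FreeGroup (Fin r))) (H : Subgroup (FreeByCyclic r φ)),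
        1 ≤ r ∧ H.FG ∧
        ∀ S T : Set (FreeByCyclic r φ), S.Finite → Subgroup.closure S = ⊤ →
          T.Finite → Subgroup.closure T = H → Equivalent (distortion S T H) (comp l)) ∧
    (∀ l l' : List ℕ, l.Pairwise (· ≥ ·) → l'.Pairwise (· ≥ ·) → (∀ k ∈ l, 1 ≤ k) →
      (∀ k ∈ l', 1 ≤ k) → l ≠ l' → ¬ Equivalent (comp l) (comp l')) := by
  refine ⟨fun l hl h1 => ?_, fun l l' h h' h1 h1' hne => ?_⟩
  · obtain ⟨r, φ, H, hr, hH, h⟩ := main l hl h1
    refine ⟨r, φ, H, hr, hH, fun S T a1 a2 a3 a4 => ?_⟩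
    rw [comp_eq]
    exact h S T a1 a2 a3 a4
  · rw [comp_eq, comp_eq]
    exact not_eqv h h' h1 h1' hne

end Pool.Agent.Results.MP_9168c4_al.AckermannCompositions
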