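import Mathlib
import Pool.Agent.DIST3.Asm

/-!
# Distortion functions of finitely generated subgroups of free-by-cyclic groups: the set of classes
up to iterated exponentials, and the exact set of the classes closed under exponentiation
-/

namespace Pool.Agent.Results.MP_9168c4_al.ExpClosedClasses

open Nat.Partrec (Code)

/-- The free-by-cyclic group `F_r ⋊ ℤ`, where the generator of `ℤ` acts on the free group as `φ`. -/
abbrev FreeByCyclic (r : ℕ) (φ : MulAut (FreeGroup (Fin r))) : Type :=
  FreeGroup (Fin r) ⋊[zpowersHom (MulAut (FreeGroup (Fin r))) φ] Multiplicative ℤ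

/-- Word length: the least `n` such that `g` is a product of at most `n` elements of `S ∪ S⁻¹`. -/
noncomputable def wordLength {G : Type*} [Group G] (S : Set G) (g : G) : ℕ :=
  sInf {n | ∃ w : List G, w.length ≤ n ∧ (∀ x ∈ w, x ∈ S ∨ x⁻¹ ∈ S) ∧ w.prod = g}

/-- The distortion function of `H` for the generating sets `S` of the group and `T` of `H`: the
largest `|h|_T` for `h ∈ H` with `|h|_S ≤ n`. -/
noncomputable def distortion {G : Type*} [Group G] (S T : Set G) (H : Subgroup G) (n : ℕ) : ℕ :=
  sSup {k | ∃ h ∈ H, wordLength S h ≤ n ∧ wordLength T h = k}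

/-- The usual comparison of functions. -/
def Preceq (f g : ℕ → ℕ) : Prop := ∃ C : ℕ, 1 ≤ C ∧ ∀ n, f n ≤ C * g (C * n + C) + C * n + C

/-- The usual equivalence of functions. -/
def Equivalent (f g : ℕ → ℕ) : Prop := Preceq f g ∧ Preceq g f

/-- `F` is, up to equivalence, the distortion function of the finitely generated subgroup `H` of
`F_r ⋊ ℤ` (for all finite generating sets). -/
def IsDistortion {r : ℕ} {φ : MulAut (FreeGroup (Fin r))} (F : ℕ → ℕ)
    (H : Subgroup (FreeByCyclic r φ)) : Prop :=
  H.FG ∧ ∀ S T : Set (FreeByCyclic r φ), S.Finite → Subgroup.closure S = ⊤ → T.Finite →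
    Subgroup.closure T = H → Equivalent F (distortion S T H)

/-- Rudimentary relations (also called `Δ₀` relations, or bounded arithmetic relations): the
relations obtained from `x + y = z` and `x * y = z` by negation, conjunction and bounded
quantification `∃ n ≤ x`. -/
inductive Rudimentary : ∀ {k : ℕ}, ((Fin k → ℕ) → Prop) → Prop
  | add {k : ℕ} (i j l : Fin k) : Rudimentary (fun v => v i + v j = v l)
  | mul {k : ℕ} (i j l : Fin k) : Rudimentary (fun v => v i * v j = v l)
  | not {k : ℕ} {Q : (Fin k → ℕ) → Prop} : Rudimentary Q → Rudimentary (fun v => ¬ Q v)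
  | and {k : ℕ} {Q Q' : (Fin k → ℕ) → Prop} :
      Rudimentary Q → Rudimentary Q' → Rudimentary (fun v => Q v ∧ Q' v)
  | bex {k : ℕ} {Q : (Fin (k + 1) → ℕ) → Prop} (i : Fin k) : Rudimentary Q →
      Rudimentary (fun v : Fin k → ℕ => ∃ n, n ≤ v i ∧ Q (Fin.cons n v))

/-- `R` is the graph of a function from a subset of `ℕ` to `ℕ`, and `R` is rudimentary. -/
structure RudimentaryGraph (R : ℕ → ℕ → Prop) : Prop where
  rudimentary : Rudimentary (fun v : Fin 2 → ℕ => R (v 0) (v 1))
  functional : ∀ N L L', R N L → R N L' → L = L'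

/-- The largest value, at arguments `N ≤ 2 ^ n`, of the function with graph `R` (`0` if no argument
`N ≤ 2 ^ n` is in the domain). -/
noncomputable def maxValue (R : ℕ → ℕ → Prop) (n : ℕ) : ℕ := sSup {L | ∃ N ≤ 2 ^ n, R N L}

/-- The maximal halting time of the program `c` on those inputs `N ≤ 2 ^ n` on which it halts. Time is
the fuel of Mathlib's evaluation `Nat.Partrec.Code.evaln` of programs for the recursive functions. -/
noncomputable def maxHaltingTime (c : Code) (n : ℕ) : ℕ :=
  sSup {k | ∃ N ≤ 2 ^ n, IsLeast {k | Code.evaln k c N ≠ none} k}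

/-- Iterated exponentials: `iterExp 0 x = x`, `iterExp (k + 1) x = 2 ^ iterExp k x`. -/
def iterExp : ℕ → ℕ → ℕ
  | 0, x => x
  | k + 1, x => 2 ^ iterExp k x

theorem rud_of {k : ℕ} {Q : (Fin k → ℕ) → Prop} (h : Rudimentary Q) : Pool.Agent.FBC.Rud Q := by
  induction h with
  | add i j l => exact Pool.Agent.FBC.Rud.add i j l
  | mul i j l => exact Pool.Agent.FBC.Rud.mul i j l
  | not _ ih => exact Pool.Agent.FBC.Rud.not ih
  | and _ _ ih ih' => exact Pool.Agent.FBC.Rud.and ih ih'
  | bex i _ ih => exact Pool.Agent.FBC.Rud.bex i ih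

theorem of_rud {k : ℕ} {Q : (Fin k → ℕ) → Prop} (h : Pool.Agent.FBC.Rud Q) : Rudimentary Q := by
  induction h with
  | add i j l => exact Rudimentary.add i j l
  | mul i j l => exact Rudimentary.mul i j l
  | not _ ih => exact Rudimentary.not ih
  | and _ _ ih ih' => exact Rudimentary.and ih ih'
  | bex i _ ih => exact Rudimentary.bex i ih

theorem rf_of {R : ℕ → ℕ → Prop} (h : RudimentaryGraph R) : Pool.Agent.DIST3.RF R :=
  ⟨rud_of h.rudimentary, h.functional⟩

theorem of_rf {R : ℕ → ℕ → Prop} (h : Pool.Agent.DIST3.RF R) : RudimentaryGraph R :=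
  ⟨of_rud h.rud, h.fn⟩

theorem iterExp_eq (k x : ℕ) : iterExp k x = Pool.Agent.DIST3.ex k x := by
  induction k with
  | zero => rfl
  | succ k ih =>
    show 2 ^ iterExp k x = 2 ^ Pool.Agent.DIST3.ex k x
    rw [ih]

/-- One classification: the distortion functions of finitely generated subgroups of free-by-cyclic
groups are, up to finitely many exponentials (their number depends on the subgroup), the functions
`maxValue R` with `R` rudimentary: (2) and (3); and for the functions `F` which are closed under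
exponentiation this is an exact description (1): `F` occurs iff `F` is equivalent to some
`maxValue R` iff `F` is equivalent to a maximal halting time. All of them occur in one group
`F_r ⋊ ℤ`. -/
theorem result :
    ∃ (r : ℕ) (φ : MulAut (FreeGroup (Fin r))), 1 ≤ r ∧
      -- (1) exact description of the classes closed under exponentiation
      (∀ F : ℕ → ℕ, Monotone F → (∃ C, ∀ n, 2 ^ F n ≤ F (C * n + C)) →
        List.TFAE [
          ∃ (r' : ℕ) (φ' : MulAut (FreeGroup (Fin r'))) (H : Subgroup (FreeByCyclic r' φ')),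
            1 ≤ r' ∧ IsDistortion F H,
          ∃ H : Subgroup (FreeByCyclic r φ), IsDistortion F H,
          ∃ R, RudimentaryGraph R ∧ Equivalent F (maxValue R),
          ∃ c : Code, Equivalent F (maxHaltingTime c)]) ∧
      -- (2) all distortion functions
      (∀ (r' : ℕ) (φ' : MulAut (FreeGroup (Fin r'))) (H : Subgroup (FreeByCyclic r' φ'))
        (S T : Set (FreeByCyclic r' φ')), S.Finite → Subgroup.closure S = ⊤ → T.Finite →
        Subgroup.closure T = H →
          ∃ R, RudimentaryGraph R ∧ ∃ k C : ℕ, ∀ n,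
            distortion S T H n ≤ maxValue R (C * n + C) ∧
            maxValue R n ≤ iterExp k (distortion S T H (C * n + C) + n + C)) ∧
      -- (3) all rudimentary graphs
      (∀ R, RudimentaryGraph R → ∃ H : Subgroup (FreeByCyclic r φ), H.FG ∧
        ∀ S T : Set (FreeByCyclic r φ), S.Finite → Subgroup.closure S = ⊤ → T.Finite →
        Subgroup.closure T = H →
          Preceq (fun n => 2 ^ max (2 ^ n) (maxValue R n)) (distortion S T H) ∧
          (∃ b : ℕ, Preceq (distortion S T H) (fun n => b ^ max (2 ^ n) (maxValue R n))) ∧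
          ((∃ C, ∀ n, 2 * max (2 ^ n) (maxValue R n) ≤
              max (2 ^ (C * n + C)) (maxValue R (C * n + C))) →
            Equivalent (distortion S T H) (fun n => 2 ^ max (2 ^ n) (maxValue R n)))) := by
  obtain ⟨r, φ, e, hr, -⟩ := Pool.Agent.DIST3.fbc_K2
  refine ⟨r, φ, hr, fun F hF hF2 => ?_, fun r' φ' H S T hS hS' hT hT' => ?_, fun R hR => ?_⟩
  · have h := Pool.Agent.DIST3.tfae_main hr e F hF hF2
    tfae_have 1 → 3 := by
      intro h1
      obtain ⟨R, k1, k2⟩ := (h.out 0 2 :).1 h1
      exact ⟨R, of_rf k1, k2⟩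
    tfae_have 3 → 4 := by
      rintro ⟨R, k1, k2⟩
      exact (h.out 2 3 :).1 ⟨R, rf_of k1, k2⟩
    tfae_have 4 → 2 := by
      intro h1
      exact (h.out 3 1 :).1 h1
    tfae_have 2 → 1 := by
      rintro ⟨H, hH⟩
      exact ⟨r, φ, H, hr, hH⟩
    tfae_finish
  · obtain ⟨R, k, C, h1, h2, h3, h4⟩ := Pool.Agent.DIST3.nec φ' H hS hS' hT hT'
    refine ⟨R, of_rf ⟨h1, h2⟩, k, C, fun n => ⟨h3 n, ?_⟩⟩
    rw [iterExp_eq]
    exact h4 n
  · obtain ⟨H, hH, h⟩ := Pool.Agent.DIST3.transport e (Pool.Agent.DIST3.binary_K2 (rf_of hR))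
    refine ⟨H, hH, fun S T hS hS' hT hT' => ?_⟩
    obtain ⟨h1, h2, h3⟩ := h S T hS hS' hT hT'
    exact ⟨h1, h2, fun h4 => ⟨h3 h4, h1⟩⟩

end Pool.Agent.Results.MP_9168c4_al.ExpClosedClasses
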