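import Mathlib
import Pool.Agent.DIST3.BB

/-!
# The largest distortion function of finitely generated subgroups of free-by-cyclic groups is the
busy beaver function
-/

namespace Pool.Agent.Results.MP_9168c4_al.LargestClass

open Nat.Partrec (Code)

/-- The free-by-cyclic group `F_r ⋊ ℤ`, where the generator of `ℤ` acts on the free group as `φ`. -/
abbrev FreeByCyclic (r : ℕ) (φ : MulAut (FreeGroup (Fin r))) : Type :=
  FreeGroup (Fin r) ⋊[zpowersHom (MulAut (FreeGroup (Fin r))) φ] Multiplicative ℤ

/-- Word length: the least `n` such that `g` is a product of at most `n` elements of `S ∪ S⁻¹`. -/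
noncomputable def wordLength {G : Type*} [Group G] (S : Set G) (g : G) : ℕ :=
  sInf {n | ∃ w : List G, w.length ≤ n ∧ (∀ x ∈ w, x ∈ S ∨ x⁻¹ ∈ S) ∧ w.prod = g}

/-- The distortion function of `H` for the generating sets `S` of the group and `T` of `H`: the
largest `|h|_T` for `h ∈ H` with `|h|_S ≤ n`. -/
noncomputable def distortion {G : Type*} [Group G] (S T : Set G) (H : Subgroup G) (n : ℕ) : ℕ :=
  sSup {k | ∃ h ∈ H, wordLength S h ≤ n ∧ wordLength T h = k}

/-- The usual comparison of functions. -/
def Preceq (f g : ℕ → ℕ) : Prop := ∃ C : ℕ, 1 ≤ C ∧ ∀ n, f n ≤ C * g (C * n + C) + C * n + C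

/-- The usual equivalence of functions. -/
def Equivalent (f g : ℕ → ℕ) : Prop := Preceq f g ∧ Preceq g f

/-- The busy beaver function: the largest halting time of a program `c` on an input `N` on which it
halts, over all pairs `(c, N)` with `⟨number of c, N⟩ ≤ 2 ^ n` (so about `n` bits for the program and
the input). The programs, their numbering and their running time (fuel) are those of Mathlib's
`Nat.Partrec.Code` and `Nat.Partrec.Code.evaln`. -/
noncomputable def busyBeaver (n : ℕ) : ℕ :=
  sSup {k | ∃ (c : Code) (N : ℕ), Nat.pair (Encodable.encode c) N ≤ 2 ^ n ∧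
    IsLeast {k | Code.evaln k c N ≠ none} k}

/-- The set of classes of distortion functions of finitely generated subgroups of free-by-cyclic
groups has a largest element, and this is the class of the busy beaver function: some finitely
generated subgroup `H` of some `F_r ⋊ ℤ` has, for all finite generating sets, a distortion function
which is `≃` the busy beaver function and `≽` the distortion function of every finitely generated
subgroup of every free-by-cyclic group; it eventually exceeds every computable function. -/
theorem result :
    ∃ (r : ℕ) (φ : MulAut (FreeGroup (Fin r))) (H : Subgroup (FreeByCyclic r φ)), 1 ≤ r ∧ H.FG ∧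
      ∀ S T : Set (FreeByCyclic r φ), S.Finite → Subgroup.closure S = ⊤ → T.Finite →
        Subgroup.closure T = H →
          Equivalent busyBeaver (distortion S T H) ∧
          (∀ (r' : ℕ) (φ' : MulAut (FreeGroup (Fin r'))) (H' : Subgroup (FreeByCyclic r' φ'))
            (S' T' : Set (FreeByCyclic r' φ')), S'.Finite → Subgroup.closure S' = ⊤ →
            T'.Finite → Subgroup.closure T' = H' →
              Preceq (distortion S' T' H') (distortion S T H)) ∧
          (∀ f : ℕ → ℕ, Computable f → ∃ n₀ : ℕ, ∀ n, n₀ ≤ n → f n < distortion S T H n) := by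
  obtain ⟨r, φ, e, hr, -⟩ := Pool.Agent.DIST3.fbc_K2
  obtain ⟨H, hH, h⟩ := Pool.Agent.DIST3.largest_BB e
  exact ⟨r, φ, H, hr, hH, h⟩

end Pool.Agent.Results.MP_9168c4_al.LargestClass
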