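import Mathlib
import Pool.Agent.FBC.FinalU
import Pool.Agent.FBC.Pow

/-!
# Distortion functions of finitely generated subgroups of one free-by-cyclic group `F_4 ⋊ ℤ`:
all functions `2 ^ g`, where `g n` is the maximum of `n` and of the values at arguments `≤ n` of a
partial function with rudimentary graph
-/

namespace Pool.Agent.Results.MP_9168c4_al.Spectrum

open Pool.Agent.helper12.FD

/-- The free-by-cyclic group `F_r ⋊ ℤ`, where the generator of `ℤ` acts on the free group as `φ`. -/
abbrev FreeByCyclic (r : ℕ) (φ : MulAut (FreeGroup (Fin r))) : Type :=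
  FreeGroup (Fin r) ⋊[zpowersHom (MulAut (FreeGroup (Fin r))) φ] Multiplicative ℤ

/-- Word length: the least `n` such that `g` is a product of at most `n` elements of `S ∪ S⁻¹`. -/
noncomputable def wordLength {G : Type*} [Group G] (S : Set G) (g : G) : ℕ :=
  sInf {n | ∃ w : List G, w.length ≤ n ∧ (∀ x ∈ w, x ∈ S ∨ x⁻¹ ∈ S) ∧ w.prod = g}

/-- The distortion function of `H` for the generating sets `S` of the group and `T` of `H`: the
largest `|h|_T` for `h ∈ H` with `|h|_S ≤ n`. -/
noncomputable def distortion {G : Type*} [Group G] (S T : Set G) (H : Subgroup G) (n : ℕ) : ℕ :=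
  sSup {k | ∃ h ∈ H, wordLength S h ≤ n ∧ wordLength T h = k}

/-- The usual comparison of functions. -/
def Preceq (f g : ℕ → ℕ) : Prop := ∃ C : ℕ, 1 ≤ C ∧ ∀ n, f n ≤ C * g (C * n + C) + C * n + C

/-- The usual equivalence of functions. -/
def Equivalent (f g : ℕ → ℕ) : Prop := Preceq f g ∧ Preceq g f

/-- Rudimentary relations (also called `Δ₀` relations, or bounded arithmetic relations): the
relations obtained from `x + y = z` and `x * y = z` by negation, conjunction and bounded
quantification `∃ n ≤ x`. -/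
inductive Rudimentary : ∀ {k : ℕ}, ((Fin k → ℕ) → Prop) → Prop
  | add {k : ℕ} (i j l : Fin k) : Rudimentary (fun v => v i + v j = v l)
  | mul {k : ℕ} (i j l : Fin k) : Rudimentary (fun v => v i * v j = v l)
  | not {k : ℕ} {Q : (Fin k → ℕ) → Prop} : Rudimentary Q → Rudimentary (fun v => ¬ Q v)
  | and {k : ℕ} {Q Q' : (Fin k → ℕ) → Prop} :
      Rudimentary Q → Rudimentary Q' → Rudimentary (fun v => Q v ∧ Q' v)
  | bex {k : ℕ} {Q : (Fin (k + 1) → ℕ) → Prop} (i : Fin k) : Rudimentary Q →
      Rudimentary (fun v : Fin k → ℕ => ∃ n, n ≤ v i ∧ Q (Fin.cons n v))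

/-- For the graph `R` of a partial function `ψ`: the largest of the numbers `n` and `ψ m`, `m ≤ n`,
`m` in the domain of `ψ`. -/
noncomputable def maxValue (R : ℕ → ℕ → Prop) (n : ℕ) : ℕ :=
  sSup {N | N = n ∨ ∃ m, m ≤ n ∧ R m N}

/-- The element of `F_r ⋊ ℤ` of a letter: `none` is the generator of `ℤ`, `some i` the `i`-th
generator of the free group, `false` stands for the inverse. -/
def letter {r : ℕ} {φ : MulAut (FreeGroup (Fin r))} (x : Option (Fin r) × Bool) :
    FreeByCyclic r φ :=
  match x with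
  | (none, true) => SemidirectProduct.inr (Multiplicative.ofAdd 1)
  | (none, false) => (SemidirectProduct.inr (Multiplicative.ofAdd 1))⁻¹
  | (some i, true) => SemidirectProduct.inl (FreeGroup.of i)
  | (some i, false) => (SemidirectProduct.inl (FreeGroup.of i))⁻¹

/-- The element of `F_r ⋊ ℤ` given by a word. -/
def wordValue {r : ℕ} {φ : MulAut (FreeGroup (Fin r))} (w : List (Option (Fin r) × Bool)) :
    FreeByCyclic r φ := (w.map letter).prod

theorem rud_of {k : ℕ} {Q : (Fin k → ℕ) → Prop} (h : Rudimentary Q) : Pool.Agent.FBC.Rud Q := by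
  induction h with
  | add i j l => exact Pool.Agent.FBC.Rud.add i j l
  | mul i j l => exact Pool.Agent.FBC.Rud.mul i j l
  | not _ ih => exact Pool.Agent.FBC.Rud.not ih
  | and _ _ ih ih' => exact Pool.Agent.FBC.Rud.and ih ih'
  | bex i _ ih => exact Pool.Agent.FBC.Rud.bex i ih

theorem set_finite (R : ℕ → ℕ → Prop) (hR : ∀ n N N', R n N → R n N' → N = N') (n : ℕ) :
    {N | N = n ∨ ∃ m, m ≤ n ∧ R m N}.Finite := by
  have h1 : {N | N = n ∨ ∃ m, m ≤ n ∧ R m N} = {n} ∪ ⋃ m ∈ Set.Iic n, {N | R m N} := by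
    ext N
    simp
  rw [h1]
  refine (Set.finite_singleton n).union ((Set.finite_Iic n).biUnion fun m _ => ?_)
  exact Set.Subsingleton.finite fun x hx y hy => hR m x y hx hy

theorem maxValue_spec (R : ℕ → ℕ → Prop) (hR : ∀ n N N', R n N → R n N' → N = N') (n : ℕ) :
    IsGreatest {N | N = n ∨ ∃ m, m ≤ n ∧ R m N} (maxValue R n) := by
  have hb := (set_finite R hR n).bddAbove
  exact ⟨Nat.sSup_mem ⟨n, Or.inl rfl⟩ hb, fun N hN => le_csSup hb hN⟩

/-- The distortion functions of the finitely generated subgroups of a free-by-cyclic group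
`F_4 ⋊ ℤ`: for each partial function `ψ` with rudimentary graph the function
`2 ^ max (n, ψ m : m ≤ n)` occurs (up to equivalence if doubling the exponent is absorbed by the
equivalence, up to the base of the exponential in general); in particular all functions
`2 ^ ⌊n ^ (p / q)⌋`, `p ≥ q ≥ 1`, and one function which eventually exceeds every computable
function (and membership in the subgroup is undecidable). -/
theorem result :
    ∃ φ : MulAut (FreeGroup (Fin 4)),
      (∀ R : ℕ → ℕ → Prop, Rudimentary (fun v : Fin 2 → ℕ => R (v 0) (v 1)) →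
        (∀ n N N', R n N → R n N' → N = N') →
        ∃ H : Subgroup (FreeByCyclic 4 φ), H.FG ∧ ∀ S T : Set (FreeByCyclic 4 φ),
          S.Finite → Subgroup.closure S = ⊤ → T.Finite → Subgroup.closure T = H →
            Preceq (fun n => 2 ^ maxValue R n) (distortion S T H) ∧
            (∃ b : ℕ, Preceq (distortion S T H) (fun n => b ^ maxValue R n)) ∧
            ((∃ C, ∀ n, 2 * maxValue R n ≤ maxValue R (C * n + C)) →
              Equivalent (distortion S T H) (fun n => 2 ^ maxValue R n))) ∧
      (∀ p q : ℕ, 1 ≤ q → q ≤ p →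
        ∃ H : Subgroup (FreeByCyclic 4 φ), H.FG ∧ ∀ S T : Set (FreeByCyclic 4 φ),
          S.Finite → Subgroup.closure S = ⊤ → T.Finite → Subgroup.closure T = H →
            Equivalent (distortion S T H) (fun n => 2 ^ ⌊(n : ℝ) ^ ((p : ℝ) / (q : ℝ))⌋₊)) ∧
      (∃ H : Subgroup (FreeByCyclic 4 φ), H.FG ∧
        ¬ ComputablePred (fun w : List (Option (Fin 4) × Bool) =>
          (wordValue w : FreeByCyclic 4 φ) ∈ H) ∧
        ∀ S T : Set (FreeByCyclic 4 φ),
          S.Finite → Subgroup.closure S = ⊤ → T.Finite → Subgroup.closure T = H →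
            ∀ f : ℕ → ℕ, Computable f →
              (∃ n₀ : ℕ, ∀ n, n₀ ≤ n → f n < distortion S T H n) ∧
              ¬ Preceq (distortion S T H) f) := by
  have hrel := Pool.Agent.FBC.rel_gg
  have hgen := Pool.Agent.FBC.closure_gg
  have univ := Pool.Agent.FBC.lift_gg
  refine ⟨Pool.Agent.FBC.phiAut, fun R hR hfun => ?_, fun p q hq hpq => ?_, ?_⟩
  · exact Pool.Agent.FBC.groupB hrel hgen univ R (rud_of hR) hfun _ (maxValue_spec R hfun)
  · obtain ⟨p, rfl⟩ : ∃ p', p = p' + 1 := ⟨p - 1, by omega⟩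
    obtain ⟨q, rfl⟩ : ∃ q', q = q' + 1 := ⟨q - 1, by omega⟩
    obtain ⟨H, hH, h⟩ := Pool.Agent.FBC.groupB hrel hgen univ _ (Pool.Agent.FBC.rud_powR p q)
      (Pool.Agent.FBC.powR_fun p q) _ (Pool.Agent.FBC.gp_greatest p q)
    refine ⟨H, hH, fun S T hS hS' hT hT' => ?_⟩
    have h1 := (h S T hS hS' hT hT').2.2 (Pool.Agent.FBC.gp_dbl p q)
    have hmono : Monotone (dist S T H) := fun m n hmn => Pool.Agent.FBC.Dist_mono hS hS' hmn
    have h2 : Eqv (dist S T H) (fun n => 2 ^ Pool.Agent.FBC.fl p q n) := by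
      refine Pool.Agent.FBC.eqv_shift hmono h1 (fun n => ?_) (2 ^ (q + 1)) (fun n => ?_)
      · exact Nat.pow_le_pow_right (by omega) (Pool.Agent.FBC.gp_le_fl (by omega) n)
      · exact Nat.pow_le_pow_right (by omega) (Pool.Agent.FBC.fl_le_gp n)
    exact h2
  · obtain ⟨H, h1, h2, h3⟩ := Pool.Agent.FBC.groupA_gg
    refine ⟨H, h1, ?_, h2⟩
    have e : ∀ w : List (Option (Fin 4) × Bool),
        (wordValue w : FreeByCyclic 4 Pool.Agent.FBC.phiAut) = Pool.Agent.FBC.evG w := by
      intro w
      show (w.map letter).prod = (w.map Pool.Agent.FBC.evL).prod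
      congr 1
      apply List.map_congr_left
      rintro ⟨o, b⟩ -
      cases o <;> cases b <;> rfl
    simp only [e]
    exact h3

end Pool.Agent.Results.MP_9168c4_al.Spectrum
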